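import Pool.Agent.H67.FG.Wld

/-!
# FG, module MAT: the matchings over the complete graph, from an abstract filtration

Points: pairs `(v, u)` of different vertices and one more point, which is in the group of `v0`. For `y` (a set of edges) the
point `(v, u)` is matched with `(u, v)` if `y s(v, u) = true`; the other points of a group are matched with each other, if their
number is even.
-/

set_option autoImplicit false

namespace Pool.Agent.H87.FG

open Finset Pool.Agent.H3.Ac Pool.Agent.H67.FG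

/-- the points -/
abbrev Pq (q : ℕ) : Type := {x : Fin q × Fin q // x.1 ≠ x.2} ⊕ Unit

/-- the edges of the complete graph -/
abbrev Ed (q : ℕ) : Type := {e : Sym2 (Fin q) // ¬ e.IsDiag}

/-- a perfect matching of each finite set of even size -/
theorem pm_exists {V : Type} [Fintype V] [DecidableEq V] (R : Finset V) :
    ∃ M : Finset (Sym2 V), IsM M ∧ (∀ e ∈ M, ∀ v ∈ e, v ∈ R) ∧ (Even R.card → R ⊆ cov M) := by
  induction R using Finset.strongInduction with
  | H R ih =>
    rcases Nat.even_or_odd R.card with hev | hodd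
    · rcases R.eq_empty_or_nonempty with rfl | ⟨a, ha⟩
      · exact ⟨∅, isM_empty, fun e he => absurd he (notMem_empty _), fun _ => empty_subset _⟩
      · have h1 : 1 < R.card := by
          have h2 : 0 < R.card := card_pos.2 ⟨a, ha⟩
          rcases hev with ⟨m, hm⟩
          omega
        obtain ⟨b, hb, hba⟩ := exists_mem_ne h1 a
        have hb' : b ∈ R.erase a := mem_erase.2 ⟨hba, hb⟩
        have hss : (R.erase a).erase b ⊂ R :=
          lt_of_le_of_lt (erase_subset _ _) (erase_ssubset ha)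
        obtain ⟨M, hM, hMR, hcov⟩ := ih _ hss
        have hnot : ∀ v, v ∈ cov M → v ≠ a ∧ v ≠ b ∧ v ∈ R := by
          intro v hv
          obtain ⟨e, he, hve⟩ := mem_cov.1 hv
          have h3 := hMR e he v hve
          rw [mem_erase, mem_erase] at h3
          exact ⟨h3.2.1, h3.1, h3.2.2⟩
        obtain ⟨hI, _, _⟩ := isM_insert hM (Ne.symm hba) (fun h => (hnot a h).1 rfl) (fun h => (hnot b h).2.1 rfl)
        refine ⟨insert s(a, b) M, hI, ?_, fun _ v hv => ?_⟩
        · intro e he v hv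
          rcases mem_insert.1 he with rfl | he
          · rcases Sym2.mem_iff.1 hv with rfl | rfl
            · exact ha
            · exact hb
          · exact (hnot v (mem_cov.2 ⟨e, he, hv⟩)).2.2
        · by_cases hva : v = a
          · exact mem_cov.2 ⟨s(a, b), mem_insert_self _ _, by rw [hva]; exact Sym2.mem_mk_left a b⟩
          · by_cases hvb : v = b
            · exact mem_cov.2 ⟨s(a, b), mem_insert_self _ _, by rw [hvb]; exact Sym2.mem_mk_right a b⟩
            · have hcard : Even ((R.erase a).erase b).card := by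
                rw [card_erase_of_mem hb', card_erase_of_mem ha]
                rcases hev with ⟨m, hm⟩
                exact ⟨m - 1, by omega⟩
              have h4 := hcov hcard (mem_erase.2 ⟨hvb, mem_erase.2 ⟨hva, hv⟩⟩)
              exact cov_mono (subset_insert _ _) h4
    · exact ⟨∅, isM_empty, fun e he => absurd he (notMem_empty _), fun h => absurd hodd (Nat.not_odd_iff_even.2 h)⟩

/-- a perfect matching of each finite set of even size -/
noncomputable def pm {V : Type} [Fintype V] [DecidableEq V] (R : Finset V) : Finset (Sym2 V) := (pm_exists R).choose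

theorem pm_spec {V : Type} [Fintype V] [DecidableEq V] (R : Finset V) :
    IsM (pm R) ∧ (∀ e ∈ pm R, ∀ v ∈ e, v ∈ R) ∧ (Even R.card → R ⊆ cov (pm R)) := (pm_exists R).choose_spec

variable {q : ℕ}

/-- the edge of a pair -/
def edg (x : {x : Fin q × Fin q // x.1 ≠ x.2}) : Ed q := ⟨s(x.1.1, x.1.2), fun h => x.2 (Sym2.mk_isDiag_iff.1 h)⟩

/-- the opposite pair -/
def opp (x : {x : Fin q × Fin q // x.1 ≠ x.2}) : {x : Fin q × Fin q // x.1 ≠ x.2} := ⟨(x.1.2, x.1.1), fun h => x.2 h.symm⟩

theorem opp_opp (x : {x : Fin q × Fin q // x.1 ≠ x.2}) : opp (opp x) = x := rfl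

theorem edg_opp (x : {x : Fin q × Fin q // x.1 ≠ x.2}) : edg (opp x) = edg x :=
  Subtype.ext (Sym2.eq_swap)

theorem opp_ne (x : {x : Fin q × Fin q // x.1 ≠ x.2}) : opp x ≠ x := by
  intro h
  have h1 := congrArg (fun z : {x : Fin q × Fin q // x.1 ≠ x.2} => z.1.1) h
  exact x.2 h1.symm

/-- the group of a point -/
def grp (v0 : Fin q) : Pq q → Fin q
  | Sum.inl x => x.1.1
  | Sum.inr _ => v0

/-- the point is free: it is not matched across -/
def fre (y : Ed q → Bool) : Pq q → Prop
  | Sum.inl x => y (edg x) = false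
  | Sum.inr _ => True

open scoped Classical in
/-- the free points of a group -/
noncomputable def Rst (v0 : Fin q) (y : Ed q → Bool) (v : Fin q) : Finset (Pq q) :=
  univ.filter fun a => grp v0 a = v ∧ fre y a

open scoped Classical in
/-- the matching -/
noncomputable def Mt (v0 : Fin q) (y : Ed q → Bool) : Finset (Sym2 (Pq q)) :=
  univ.filter fun e => (∃ x : {x : Fin q × Fin q // x.1 ≠ x.2}, y (edg x) = true ∧ e = s(Sum.inl x, Sum.inl (opp x))) ∨
    ∃ v, e ∈ pm (Rst v0 y v)

theorem mem_Mt {v0 : Fin q} {y : Ed q → Bool} {e : Sym2 (Pq q)} : e ∈ Mt v0 y ↔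
    (∃ x : {x : Fin q × Fin q // x.1 ≠ x.2}, y (edg x) = true ∧ e = s(Sum.inl x, Sum.inl (opp x))) ∨
      ∃ v, e ∈ pm (Rst v0 y v) := by
  unfold Mt
  rw [mem_filter]
  exact ⟨fun h => h.2, fun h => ⟨mem_univ _, h⟩⟩

theorem mem_Rst {v0 : Fin q} {y : Ed q → Bool} {v : Fin q} {a : Pq q} :
    a ∈ Rst v0 y v ↔ grp v0 a = v ∧ fre y a := by
  classical
  unfold Rst
  constructor
  · intro h
    exact (mem_filter.1 h).2
  · intro h
    exact mem_filter.2 ⟨mem_univ _, h⟩

/-- an edge of the matching at the point `a` -/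
theorem at_point {v0 : Fin q} {y : Ed q → Bool} {e : Sym2 (Pq q)} (he : e ∈ Mt v0 y) {a : Pq q} (ha : a ∈ e) :
    (∃ x, a = Sum.inl x ∧ y (edg x) = true ∧ e = s(Sum.inl x, Sum.inl (opp x))) ∨
      (fre y a ∧ e ∈ pm (Rst v0 y (grp v0 a))) := by
  rcases mem_Mt.1 he with ⟨x, hx, rfl⟩ | ⟨v, hv⟩
  · left
    rcases Sym2.mem_iff.1 ha with rfl | rfl
    · exact ⟨x, rfl, hx, rfl⟩
    · refine ⟨opp x, rfl, by rw [edg_opp]; exact hx, ?_⟩
      rw [opp_opp]
      exact Sym2.eq_swap
  · right
    have h1 := (pm_spec (Rst v0 y v)).2.1 e hv a ha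
    obtain ⟨h2, h3⟩ := mem_Rst.1 h1
    rw [h2]
    exact ⟨h3, hv⟩

theorem isM_Mt (v0 : Fin q) (y : Ed q → Bool) : IsM (Mt v0 y) := by
  refine ⟨fun e he => ?_, fun e he f hf a ha ha' => ?_⟩
  · rcases mem_Mt.1 he with ⟨x, hx, rfl⟩ | ⟨v, hv⟩
    · rw [Sym2.mk_isDiag_iff]
      intro h
      exact opp_ne x (Sum.inl.inj h).symm
    · exact (pm_spec _).1.1 e hv
  · rcases at_point he ha with ⟨x, hx1, hx2, hx3⟩ | ⟨h1, h2⟩
    · rcases at_point hf ha' with ⟨x', hx1', hx2', hx3'⟩ | ⟨h1', h2'⟩
      · have h3 : x = x' := Sum.inl.inj (hx1.symm.trans hx1')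
        rw [hx3, hx3', h3]
      · rw [hx1] at h1'
        exact absurd (hx2.symm.trans h1') (by decide)
    · rcases at_point hf ha' with ⟨x', hx1', hx2', hx3'⟩ | ⟨h1', h2'⟩
      · rw [hx1'] at h1
        exact absurd (hx2'.symm.trans h1) (by decide)
      · exact (pm_spec _).1.2 e h2 f h2' a ha ha'

/-- the edges at the group of `a` -/
def Eg (v : Fin q) : Finset (Ed q) := univ.filter fun e => v ∈ e.1

theorem mem_Eg {v : Fin q} {e : Ed q} : e ∈ Eg v ↔ v ∈ e.1 := by
  unfold Eg
  rw [mem_filter]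
  exact ⟨fun h => h.2, fun h => ⟨mem_univ _, h⟩⟩

/-- the other endpoints of the edges at `v` -/
theorem card_Eg (v : Fin q) : (Eg v).card = q - 1 := by
  have h1 : (univ.filter fun u : Fin q => u ≠ v).card = q - 1 := by
    rw [filter_ne', card_erase_of_mem (mem_univ _), card_univ, Fintype.card_fin]
  rw [← h1]
  symm
  refine card_bij (fun u hu => (⟨s(v, u), fun h => (mem_filter.1 hu).2 (Sym2.mk_isDiag_iff.1 h).symm⟩ : Ed q)) ?_ ?_ ?_
  · intro u hu
    exact mem_Eg.2 (Sym2.mem_mk_left v u)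
  · intro u hu u' hu' h
    have h2 : s(v, u) = s(v, u') := congrArg Subtype.val h
    exact Sym2.congr_right.1 h2
  · intro e he
    obtain ⟨u, hu⟩ := Sym2.mem_iff_exists.1 (mem_Eg.1 he)
    have hne : u ≠ v := by
      intro h
      apply e.2
      rw [hu, h, Sym2.mk_isDiag_iff]
    exact ⟨u, mem_filter.2 ⟨mem_univ _, hne⟩, Subtype.ext hu.symm⟩

/-- free points of a group: their number -/
theorem card_Rst (v0 : Fin q) (y : Ed q → Bool) (v : Fin q) :
    (Rst v0 y v).card = (univ.filter fun e : Ed q => v ∈ e.1 ∧ y e = false).card + if v = v0 then 1 else 0 := by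
  classical
  have h1 : Rst v0 y v = ((univ.filter fun x : {x : Fin q × Fin q // x.1 ≠ x.2} => x.1.1 = v ∧ y (edg x) = false).image
      (Sum.inl : _ → Pq q)) ∪ (if v = v0 then {Sum.inr ()} else ∅) := by
    ext a
    rw [mem_Rst, mem_union, mem_image]
    rcases a with x | u
    · constructor
      · intro h
        exact Or.inl ⟨x, mem_filter.2 ⟨mem_univ _, h.1, h.2⟩, rfl⟩
      · rintro (⟨x', hx', h⟩ | h)
        · have h2 := Sum.inl.inj h
          rw [← h2]
          exact ⟨(mem_filter.1 hx').2.1, (mem_filter.1 hx').2.2⟩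
        · split_ifs at h
          · exact absurd (mem_singleton.1 h) (by simp)
          · exact absurd h (notMem_empty _)
    · constructor
      · intro h
        right
        have h3 : v = v0 := h.1.symm
        rw [if_pos h3]
        exact mem_singleton.2 rfl
      · rintro (⟨x', hx', h⟩ | h)
        · exact absurd h (by simp)
        · split_ifs at h with h3
          · exact ⟨h3.symm, trivial⟩
          · exact absurd h (notMem_empty _)
  rw [h1, card_union_of_disjoint, card_image_of_injective _ Sum.inl_injective]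
  · have h2 : (univ.filter fun x : {x : Fin q × Fin q // x.1 ≠ x.2} => x.1.1 = v ∧ y (edg x) = false).card =
        (univ.filter fun e : Ed q => v ∈ e.1 ∧ y e = false).card := by
      refine card_bij (fun x _ => edg x) ?_ ?_ ?_
      · intro x hx
        obtain ⟨_, h3, h4⟩ := mem_filter.1 hx
        refine mem_filter.2 ⟨mem_univ _, ?_, h4⟩
        rw [← h3]
        exact Sym2.mem_mk_left _ _
      · intro x hx x' hx' h
        obtain ⟨_, h3, h4⟩ := mem_filter.1 hx
        obtain ⟨_, h3', h4'⟩ := mem_filter.1 hx'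
        have h5 : s(x.1.1, x.1.2) = s(x'.1.1, x'.1.2) := congrArg Subtype.val h
        rw [h3, h3'] at h5
        have h6 := Sym2.congr_right.1 h5
        exact Subtype.ext (Prod.ext (h3.trans h3'.symm) h6)
      · intro e he
        obtain ⟨_, h3, h4⟩ := mem_filter.1 he
        obtain ⟨u, hu⟩ := Sym2.mem_iff_exists.1 h3
        have hne : v ≠ u := by
          intro h
          apply e.2
          rw [hu, h, Sym2.mk_isDiag_iff]
        have h7 : edg (⟨(v, u), hne⟩ : {x : Fin q × Fin q // x.1 ≠ x.2}) = e := Subtype.ext hu.symm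
        refine ⟨⟨(v, u), hne⟩, mem_filter.2 ⟨mem_univ _, rfl, ?_⟩, h7⟩
        rw [h7]
        exact h4
    rw [h2]
    split_ifs with h3
    · rw [card_singleton]
    · rw [card_empty]
  · rw [disjoint_left]
    intro a ha ha'
    obtain ⟨x, _, rfl⟩ := mem_image.1 ha
    split_ifs at ha'
    · exact absurd (mem_singleton.1 ha') (by simp)
    · exact absurd ha' (notMem_empty _)

/-- the variables which matter for the partners of the points of `A` -/
def EA (v0 : Fin q) (A : Finset (Pq q)) : Finset (Ed q) := A.biUnion fun a => Eg (grp v0 a)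

theorem card_EA (v0 : Fin q) (A : Finset (Pq q)) : (EA v0 A).card ≤ A.card * (q - 1) :=
  card_biUnion_le_card_mul _ _ _ fun _ _ => le_of_eq (card_Eg _)

theorem edg_mem_Eg (x : {x : Fin q × Fin q // x.1 ≠ x.2}) : edg x ∈ Eg x.1.1 := mem_Eg.2 (Sym2.mem_mk_left _ _)

theorem Rst_congr {v0 : Fin q} {y y' : Ed q → Bool} {v : Fin q} (h : ∀ e ∈ Eg v, y e = y' e) :
    Rst v0 y v = Rst v0 y' v := by
  ext a
  rw [mem_Rst, mem_Rst]
  refine and_congr_right fun hv => ?_
  rcases a with x | u
  · have h1 : y (edg x) = y' (edg x) := h _ (by rw [← hv]; exact edg_mem_Eg x)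
    show y (edg x) = false ↔ y' (edg x) = false
    rw [h1]
  · exact Iff.rfl

/-- locality, one direction -/
theorem loc_one {v0 : Fin q} {y y' : Ed q → Bool} {a : Pq q} (h : ∀ e ∈ Eg (grp v0 a), y e = y' e)
    {e : Sym2 (Pq q)} (he : e ∈ Mt v0 y) (ha : a ∈ e) : e ∈ Mt v0 y' := by
  rcases at_point he ha with ⟨x, rfl, hx2, hx3⟩ | ⟨h1, h2⟩
  · refine mem_Mt.2 (Or.inl ⟨x, ?_, hx3⟩)
    rw [← h _ (edg_mem_Eg x)]
    exact hx2
  · refine mem_Mt.2 (Or.inr ⟨grp v0 a, ?_⟩)
    rw [← Rst_congr h]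
    exact h2

theorem mem_tch {A : Finset (Pq q)} {M : Finset (Sym2 (Pq q))} {e : Sym2 (Pq q)} :
    e ∈ tch A M ↔ e ∈ M ∧ ∃ v ∈ A, v ∈ e := by
  unfold tch
  rw [mem_filter]

/-- locality -/
theorem tch_congr {v0 : Fin q} {y y' : Ed q → Bool} {A : Finset (Pq q)} (h : ∀ e ∈ EA v0 A, y e = y' e) :
    tch A (Mt v0 y) = tch A (Mt v0 y') := by
  have h1 : ∀ a ∈ A, ∀ e ∈ Eg (grp v0 a), y e = y' e := fun a ha e he => h e (mem_biUnion.2 ⟨a, ha, he⟩)
  ext e
  rw [mem_tch, mem_tch]
  constructor
  · rintro ⟨he, a, ha, hae⟩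
    exact ⟨loc_one (h1 a ha) he hae, a, ha, hae⟩
  · rintro ⟨he, a, ha, hae⟩
    exact ⟨loc_one (fun e he => (h1 a ha e he).symm) he hae, a, ha, hae⟩

theorem cov_tch {A : Finset (Pq q)} {M : Finset (Sym2 (Pq q))} : A ⊆ cov M ↔ A ⊆ cov (tch A M) := by
  constructor
  · intro h a ha
    obtain ⟨e, he, hae⟩ := mem_cov.1 (h ha)
    exact mem_cov.2 ⟨e, mem_tch.2 ⟨he, a, ha, hae⟩, hae⟩
  · intro h a ha
    obtain ⟨e, he, hae⟩ := mem_cov.1 (h ha)
    exact mem_cov.2 ⟨e, (mem_tch.1 he).1, hae⟩

/-- an uncovered point: the parity of its group is wrong -/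
theorem uncov {v0 : Fin q} {y : Ed q → Bool} {a : Pq q} (h : a ∉ cov (Mt v0 y)) :
    ¬ Even (Rst v0 y (grp v0 a)).card := by
  intro hev
  apply h
  by_cases hf : fre y a
  · have h1 := (pm_spec (Rst v0 y (grp v0 a))).2.2 hev (mem_Rst.2 ⟨rfl, hf⟩)
    obtain ⟨e, he, hae⟩ := mem_cov.1 h1
    exact mem_cov.2 ⟨e, mem_Mt.2 (Or.inr ⟨_, he⟩), hae⟩
  · rcases a with x | u
    · have h1 : y (edg x) = true := by
        cases h2 : y (edg x)
        · exact absurd h2 hf
        · rfl
      exact mem_cov.2 ⟨_, mem_Mt.2 (Or.inl ⟨x, h1, rfl⟩), Sym2.mem_mk_left _ _⟩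
    · exact absurd trivial hf

/-- the matching world from a filtration: functions of `n` variables have degree at most `n`, and the parity violations are in
`Z` -/
theorem mat_of (k : Type) [Field k] (q : ℕ) (v0 : Fin q) (𝓐 : Alg k (Ed q → Bool))
    (hdeg : ∀ (E : Finset (Ed q)) (P : (Ed q → Bool) → Prop), (∀ y y', (∀ e ∈ E, y e = y' e) → (P y ↔ P y')) →
      ind P ∈ 𝓐.Deg E.card)
    (hviol : ∀ v : Fin q, ind (fun y : Ed q → Bool =>
      ¬ Even ((univ.filter fun e : Ed q => v ∈ e.1 ∧ y e = false).card + if v = v0 then 1 else 0)) ∈ 𝓐.Z) :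
    ∃ 𝓦 : MW k (Ed q → Bool) (Pq q), 𝓦.toAlg = 𝓐 ∧ 𝓦.c = q - 1 := by
  have hviol' : ∀ v : Fin q, ind (fun y : Ed q → Bool => ¬ Even (Rst v0 y v).card) ∈ 𝓐.Z := by
    intro v
    have h1 := hviol v
    simp only [← card_Rst v0] at h1
    exact h1
  have hdv : ∀ v : Fin q, ind (fun y : Ed q → Bool => ¬ Even (Rst v0 y v).card) ∈ 𝓐.Deg (q - 1) := by
    intro v
    have h1 := hdeg (Eg v) (fun y => ¬ Even (Rst v0 y v).card) (fun y y' h => by rw [Rst_congr h])
    rw [card_Eg] at h1
    exact h1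
  have hdA : ∀ (A : Finset (Pq q)) (P : (Ed q → Bool) → Prop), (∀ y y', (∀ e ∈ EA v0 A, y e = y' e) → (P y ↔ P y')) →
      ind P ∈ 𝓐.Deg (A.card * (q - 1)) := fun A P h => 𝓐.mono (card_EA v0 A) (hdeg _ _ h)
  refine ⟨{ toAlg := 𝓐, M := Mt v0, c := q - 1, isM := isM_Mt v0, loc := ?_, stk := ?_ }, rfl, rfl⟩
  · intro A δ
    exact hdA A _ fun y y' h => by rw [tch_congr h]
  · intro A
    classical
    induction A using Finset.induction_on with
    | empty =>
      intro _
      have h1 : ind (k := k) (fun y : Ed q → Bool => ¬ (∅ : Finset (Pq q)) ⊆ cov (Mt v0 y)) = 0 := by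
        funext y
        unfold ind
        rw [if_neg (fun h => h (empty_subset _))]
        rfl
      rw [h1]
      exact Submodule.zero_mem _
    | insert a A ha ih =>
      intro hK
      rw [card_insert_of_notMem ha] at hK
      have hK1 : 2 * (A.card * (q - 1)) + (q - 1) ≤ 𝓐.K := by
        have h1 : A.card * (q - 1) ≤ (A.card + 1) * (q - 1) := Nat.mul_le_mul_right _ (Nat.le_succ _)
        omega
      have h0 := ih hK1
      have hf : ind (k := k) (fun y : Ed q → Bool => A ⊆ cov (Mt v0 y) ∧ a ∉ cov (Mt v0 y)) ∈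
          𝓐.Deg ((insert a A).card * (q - 1)) := by
        refine hdA (insert a A) _ fun y y' h => ?_
        have h1 : A ⊆ cov (Mt v0 y) ↔ A ⊆ cov (Mt v0 y') := by
          rw [cov_tch, cov_tch (M := Mt v0 y'), tch_congr fun e he => h e (biUnion_subset_biUnion_of_subset_left _
            (subset_insert _ _) he)]
        have h2 : ({a} : Finset (Pq q)) ⊆ cov (Mt v0 y) ↔ ({a} : Finset (Pq q)) ⊆ cov (Mt v0 y') := by
          rw [cov_tch, cov_tch (M := Mt v0 y'), tch_congr fun e he => h e (biUnion_subset_biUnion_of_subset_left _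
            (singleton_subset_iff.2 (mem_insert_self _ _)) he)]
        rw [singleton_subset_iff, singleton_subset_iff] at h2
        rw [h1, h2]
      rw [card_insert_of_notMem ha] at hf
      have h3 : ind (k := k) (fun y : Ed q → Bool => ¬ insert a A ⊆ cov (Mt v0 y)) =
          ind (fun y => ¬ A ⊆ cov (Mt v0 y)) + ind (fun y => A ⊆ cov (Mt v0 y) ∧ a ∉ cov (Mt v0 y)) *
            ind (fun y => ¬ Even (Rst v0 y (grp v0 a)).card) := by
        funext y
        rw [Pi.add_apply, Pi.mul_apply]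
        unfold ind
        by_cases h1 : A ⊆ cov (Mt v0 y)
        · by_cases h2 : a ∈ cov (Mt v0 y)
          · rw [if_neg (fun h => h (insert_subset h2 h1)), if_neg (fun h => h h1), if_neg (fun h => h.2 h2)]
            ring
          · rw [if_pos (fun h => h2 (h (mem_insert_self _ _))), if_neg (fun h => h h1), if_pos ⟨h1, h2⟩,
              if_pos (uncov h2)]
            ring
        · rw [if_pos (fun h => h1 ((subset_insert _ _).trans h)), if_pos h1, if_neg (fun h => h1 h.1)]
          ring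
      rw [h3]
      refine Submodule.add_mem _ h0 (𝓐.zmul ?_ hf (hdv _) (hviol' _))
      have h4 : 2 * ((A.card + 1) * (q - 1)) + (q - 1) ≤ 𝓐.K := hK
      omega

/-- the number of points -/
theorem card_Pq (q : ℕ) : Fintype.card (Pq q) = q * (q - 1) + 1 := by
  rw [Fintype.card_sum, Fintype.card_unit, Fintype.card_of_subtype (univ : Finset (Fin q)).offDiag
    (fun x => by rw [mem_offDiag]; exact ⟨fun h => h.2.2, fun h => ⟨mem_univ _, mem_univ _, h⟩⟩), offDiag_card,
    card_univ, Fintype.card_fin, Nat.mul_sub_one]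

end Pool.Agent.H87.FG
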